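import Pool.Agent.H78.S.TA

/-! Row AGN of the board sgt_modules: normal subgroups of the affine group. -/

set_option autoImplicit false

open Set Pool.Agent.H78.S

namespace Pool.Agent.H85.S

section affine

variable {Γ K : Type} [Group Γ] [Field K] {a b : Γ → K}

theorem AfH.a1 (h : AfH Γ K a b) : a 1 = 1 := by
  have h1 := h.amul 1 1
  rw [mul_one] at h1
  have h2 := h.ne 1
  field_simp at h1
  exact h1.symm

theorem AfH.b1 (h : AfH Γ K a b) : b 1 = 0 := by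
  have h1 := h.bmul 1 1
  rw [mul_one, AfH.a1 h, one_mul] at h1
  linear_combination -h1

theorem AfH.ainv (h : AfH Γ K a b) (g : Γ) : a g⁻¹ = (a g)⁻¹ := by
  have h1 := h.amul g⁻¹ g
  rw [inv_mul_cancel, AfH.a1 h] at h1
  have h2 := h.ne g
  field_simp
  exact h1.symm

theorem AfH.binv (h : AfH Γ K a b) (g : Γ) : b g⁻¹ = -((a g)⁻¹ * b g) := by
  have h1 := h.bmul g⁻¹ g
  rw [inv_mul_cancel, AfH.b1 h, AfH.ainv h] at h1
  linear_combination -h1

end affine

theorem pf_AGN : T_AGN := by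
  intro Γ K _ _ a b h hs N hN hg v
  obtain ⟨g, hgN, hg1⟩ := hg
  by_cases ha : a g = 1
  · have hb : b g ≠ 0 := fun hb => hg1 ⟨ha, hb⟩
    by_cases hv : v = 0
    · exact ⟨1, N.one_mem, AfH.a1 h, by rw [AfH.b1 h, hv]⟩
    · obtain ⟨c, hc1, hc2⟩ := hs (v / b g) 0 (div_ne_zero hv hb)
      refine ⟨c * g * c⁻¹, hN.conj_mem g hgN c, ?_, ?_⟩
      · rw [h.amul, h.amul, AfH.ainv h, ha, mul_one, mul_inv_cancel₀ (h.ne c)]
      · rw [h.bmul, h.bmul, h.amul, AfH.binv h, ha, hc2, hc1]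
        field_simp
        ring
  · obtain ⟨t, ht1, ht2⟩ := hs 1 (v / (a g - 1)) one_ne_zero
    have ha' : a g - 1 ≠ 0 := sub_ne_zero.2 ha
    have hane := h.ne g
    refine ⟨g * (t * g⁻¹ * t⁻¹), N.mul_mem hgN (hN.conj_mem _ (N.inv_mem hgN) t), ?_, ?_⟩
    · rw [h.amul, h.amul, h.amul, AfH.ainv h, AfH.ainv h, ht1]
      field_simp
    · rw [h.bmul, h.bmul, h.bmul, h.amul, AfH.ainv h, AfH.binv h, AfH.binv h, ht1, ht2]
      field_simp
      ring

end Pool.Agent.H85.S
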