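import Pool.Agent.H78.S.Targets

/-! Row RGX of the board sgt_modules: the ring, algebra. -/

set_option autoImplicit false

open Set Pool.Agent.H77.BC Pool.Agent.H78.S

namespace Pool.Agent.H85.S

/-- The commutative ring generated by commuting automorphisms of `A`, when `A` is generated by one
element in the strong sense. -/
theorem ring_aux (A ι : Type) [AddCommGroup A] (τ : ι → AddMonoid.End A) (v1 : A)
    (hcom : ∀ i j, τ i * τ j = τ j * τ i) (hinv : ∀ i, ∃ i', τ i' * τ i = 1)
    (hgen : ∀ v : A, ∃ i j, v = τ i v1 + τ j v1) :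
    ∃ (R : Type) (_ : CommRing R) (ev : R ≃+ A), ev 1 = v1 ∧
      ∀ i, ∃ a : Rˣ, ∀ r : R, ev (a * r) = τ i (ev r) := by
  classical
  have hc : ∀ x ∈ Set.range τ, ∀ y ∈ Set.range τ, x * y = y * x := by
    rintro _ ⟨i, rfl⟩ _ ⟨j, rfl⟩
    exact hcom i j
  let _ : CommRing (Subring.closure (Set.range τ)) := Subring.closureCommRingOfComm hc
  have hmem : ∀ i, τ i ∈ Subring.closure (Set.range τ) := fun i =>
    Subring.subset_closure ⟨i, rfl⟩
  let ev0 : Subring.closure (Set.range τ) →+ A :=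
    { toFun := fun r => (r : AddMonoid.End A) v1
      map_zero' := rfl
      map_add' := fun _ _ => rfl }
  have hcr : ∀ (r : Subring.closure (Set.range τ)) (i : ι) (x : A),
      (r : AddMonoid.End A) (τ i x) = τ i ((r : AddMonoid.End A) x) := by
    intro r i x
    have h1 : r * ⟨τ i, hmem i⟩ = ⟨τ i, hmem i⟩ * r := mul_comm _ _
    have h2 : (r : AddMonoid.End A) * τ i = τ i * (r : AddMonoid.End A) :=
      congrArg Subtype.val h1
    exact DFunLike.congr_fun h2 x
  have hbij : Function.Bijective ev0 := by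
    constructor
    · rw [injective_iff_map_eq_zero]
      intro r hr
      have hr' : (r : AddMonoid.End A) v1 = 0 := hr
      apply Subtype.ext
      have h5 : ∀ v : A, (r : AddMonoid.End A) v = 0 := by
        intro v
        obtain ⟨i, j, rfl⟩ := hgen v
        rw [map_add, hcr, hcr, hr', map_zero, map_zero, add_zero]
      exact DFunLike.ext _ _ h5
    · intro v
      obtain ⟨i, j, rfl⟩ := hgen v
      exact ⟨⟨τ i, hmem i⟩ + ⟨τ j, hmem j⟩, rfl⟩
  refine ⟨Subring.closure (Set.range τ), inferInstance, AddEquiv.ofBijective ev0 hbij, rfl, ?_⟩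
  intro i
  obtain ⟨i', hi'⟩ := hinv i
  have hi2 : τ i * τ i' = 1 := by rw [hcom, hi']
  refine ⟨⟨⟨τ i, hmem i⟩, ⟨τ i', hmem i'⟩, Subtype.ext hi2, Subtype.ext hi'⟩, ?_⟩
  intro r
  rfl

theorem pf_RGX : T_RGX := by
  classical
  intro G S _ _ V T o e hV hT hTV hTo hreg he hgen
  let _ : CommGroup V :=
    { (inferInstance : Group V) with
      mul_comm := fun a b => Subtype.ext (hV a a.2 b b.2) }
  -- uniqueness
  have huniq : ∀ v w : V, (v : G) • o = (w : G) • o → v = w := by
    intro v w h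
    have h1 : ((w : G)⁻¹ * v) • o = o := by
      rw [mul_smul, h, inv_smul_smul]
    have h2 := hreg _ (V.mul_mem (V.inv_mem w.2) v.2) h1
    exact Subtype.ext (inv_mul_eq_one.1 h2).symm
  -- conjugation
  let τ0 : T → V →* V := fun t =>
    { toFun := fun v => ⟨(t : G) * v * (t : G)⁻¹, hTV t t.2 v v.2⟩
      map_one' := by
        apply Subtype.ext
        simp
      map_mul' := fun v w => by
        apply Subtype.ext
        simp [mul_assoc] }
  let τ : T → AddMonoid.End (Additive V) := fun t => MonoidHom.toAdditive (τ0 t)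
  obtain ⟨v1, hv1, he1⟩ := he
  have hτ : ∀ (t : T) (v : V), τ t (Additive.ofMul v) =
      Additive.ofMul (⟨(t : G) * v * (t : G)⁻¹, hTV t t.2 v v.2⟩ : V) := fun t v => rfl
  have hact : ∀ (t : T) (v : V), ((τ0 t v : V) : G) • o = (t : G) • ((v : G) • o) := by
    intro t v
    change ((t : G) * v * (t : G)⁻¹) • o = _
    have h1 : (t : G)⁻¹ • o = o := by
      rw [inv_smul_eq_iff, hTo t t.2]
    rw [mul_smul, mul_smul, h1]
  obtain ⟨R, hR, ev, hev1, heva⟩ := ring_aux (Additive V) T τ (Additive.ofMul ⟨v1, hv1⟩)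
    (by
      intro s t
      apply AddMonoidHom.ext
      intro x
      apply congrArg Additive.ofMul
      apply Subtype.ext
      change (s : G) * ((t : G) * (x.toMul : G) * (t : G)⁻¹) * (s : G)⁻¹ =
        (t : G) * ((s : G) * (x.toMul : G) * (s : G)⁻¹) * (t : G)⁻¹
      have h1 : (s : G) * t = t * s := hT s s.2 t t.2
      calc (s : G) * ((t : G) * (x.toMul : G) * (t : G)⁻¹) * (s : G)⁻¹
          = ((s : G) * t) * (x.toMul : G) * ((s : G) * t)⁻¹ := by group
        _ = ((t : G) * s) * (x.toMul : G) * ((t : G) * s)⁻¹ := by rw [h1]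
        _ = _ := by group)
    (by
      intro t
      refine ⟨t⁻¹, ?_⟩
      apply AddMonoidHom.ext
      intro x
      apply congrArg Additive.ofMul
      apply Subtype.ext
      change ((t⁻¹ : T) : G) * ((t : G) * (x.toMul : G) * (t : G)⁻¹) * ((t⁻¹ : T) : G)⁻¹ =
        (x.toMul : G)
      rw [Subgroup.coe_inv]
      group)
    (by
      intro v
      obtain ⟨t, ht, t', ht', w, hw, h1, h2⟩ := hgen (((v.toMul : V) : G) • o)
        ⟨_, (v.toMul : V).2, rfl⟩
      refine ⟨⟨t, ht⟩, ⟨t', ht'⟩, ?_⟩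
      have h3 : (⟨w, hw⟩ : V) = τ0 ⟨t, ht⟩ ⟨v1, hv1⟩ := by
        apply huniq
        rw [hact]
        rw [h1, he1]
      have h4 : (v.toMul : V) = τ0 ⟨t, ht⟩ ⟨v1, hv1⟩ * τ0 ⟨t', ht'⟩ ⟨v1, hv1⟩ := by
        apply huniq
        rw [h2, ← h3, Subgroup.coe_mul, mul_smul, hact, he1]
      exact congrArg Additive.ofMul h4)
  -- the coordinate
  have hex : ∀ y : S, ∃ v : V, y ∈ Orb V o → y = (v : G) • o := by
    intro y
    by_cases hy : y ∈ Orb V o
    · obtain ⟨v, hv, h⟩ := hy
      exact ⟨⟨v, hv⟩, fun _ => h⟩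
    · exact ⟨1, fun h => absurd h hy⟩
  choose vv hvv using hex
  have hvo : ∀ v : V, vv ((v : G) • o) = v := by
    intro v
    apply huniq
    exact (hvv _ ⟨v, v.2, rfl⟩).symm
  have horb : ∀ v : V, (v : G) • o ∈ Orb V o := fun v => ⟨v, v.2, rfl⟩
  refine ⟨R, hR, fun y => ev.symm (Additive.ofMul (vv y)), ?_, ?_, ?_, ?_, ?_, ?_⟩
  · intro y hy y' hy' h
    have h1 : vv y = vv y' := Additive.ofMul.injective (ev.symm.injective h)
    rw [hvv y hy, hvv y' hy', h1]
  · intro r
    refine ⟨(((ev r).toMul : V) : G) • o, horb _, ?_⟩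
    change ev.symm (Additive.ofMul (vv _)) = r
    rw [hvo]
    exact ev.symm_apply_apply r
  · change ev.symm (Additive.ofMul (vv o)) = 0
    have h1 : vv o = 1 := by
      have := hvo 1
      rwa [Subgroup.coe_one, one_smul] at this
    rw [h1, ofMul_one, map_zero]
  · change ev.symm (Additive.ofMul (vv e)) = 1
    have h1 : vv e = ⟨v1, hv1⟩ := by
      rw [he1]
      exact hvo ⟨v1, hv1⟩
    rw [h1, ← hev1, ev.symm_apply_apply]
  · intro v hv y hy
    change ev.symm (Additive.ofMul (vv (v • y))) = ev.symm (Additive.ofMul (vv y)) +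
      ev.symm (Additive.ofMul (vv (v • o)))
    have h1 : vv (v • y) = ⟨v, hv⟩ * vv y := by
      apply huniq
      have h2 : v • y ∈ Orb V o := by
        refine ⟨v * vv y, V.mul_mem hv (vv y).2, ?_⟩
        rw [mul_smul, ← hvv y hy]
      rw [← hvv _ h2, Subgroup.coe_mul, mul_smul, ← hvv y hy]
    have h3 : vv (v • o) = ⟨v, hv⟩ := hvo ⟨v, hv⟩
    rw [h1, h3, ofMul_mul, map_add, add_comm]
  · intro t ht
    obtain ⟨a, ha⟩ := heva ⟨t, ht⟩
    have hty : ∀ y ∈ Orb V o, ev.symm (Additive.ofMul (vv (t • y))) =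
        a * ev.symm (Additive.ofMul (vv y)) := by
      intro y hy
      apply ev.injective
      rw [ha, ev.apply_symm_apply, ev.apply_symm_apply]
      have h1 : vv (t • y) = τ0 ⟨t, ht⟩ (vv y) := by
        apply huniq
        have h2 : t • y = ((τ0 ⟨t, ht⟩ (vv y) : V) : G) • o := by
          rw [hact, ← hvv y hy]
        rw [h2, hvo]
      exact congrArg Additive.ofMul h1
    refine ⟨a, ?_, hty⟩
    have h1 := hty e ⟨v1, hv1, he1⟩
    have h2 : vv e = ⟨v1, hv1⟩ := by
      rw [he1]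
      exact hvo ⟨v1, hv1⟩
    have h3 : ev.symm (Additive.ofMul (vv e)) = 1 := by
      rw [h2, ← hev1, ev.symm_apply_apply]
    rw [h3, mul_one] at h1
    exact h1

end Pool.Agent.H85.S
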