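import Pool.Agent.H78.S.Targets

/-! Row SPA of the board sgt_modules: three equal kernels, `n = 2`. -/

set_option autoImplicit false

open Set Pool.Agent.H77.BC Pool.Agent.H78.S
open scoped Pointwise

namespace Pool.Agent.H85.S

/-- two elements of `T` give the same coordinate when their quotient is in the kernel -/
theorem spa_iff {G S K : Type} [Group G] [MulAction G S] [Field K] {T : Subgroup G} {X : Set S}
    {e : S} {f : S → K} {E : Set (S × S)} (hTX : Orb T e ⊆ X)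
    (h1 : ∀ t ∈ T, f (t • e) ≠ 0 ∧ ∀ y ∈ X, f (t • y) = f (t • e) * f y)
    (h3 : ∀ t, t ∈ kap T E ↔ t ∈ T ∧ f (t • e) = 1) (t s : G) (ht : t ∈ T) (hs : s ∈ T) :
    f (t • e) = f (s • e) ↔ s⁻¹ * t ∈ kap T E := by
  have hst : s⁻¹ * t ∈ T := T.mul_mem (T.inv_mem hs) ht
  have h4 : f (t • e) = f (s • e) * f ((s⁻¹ * t) • e) := by
    rw [← (h1 s hs).2 _ (hTX ⟨s⁻¹ * t, hst, rfl⟩), smul_smul, mul_inv_cancel_left]
  rw [h3, h4]
  constructor
  · intro h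
    exact ⟨hst, mul_left_cancel₀ (h1 s hs).1 (by rw [h, mul_one])⟩
  · rintro ⟨-, h⟩
    rw [h, mul_one]

/-- an element which exchanges the kernels exchanges the coordinates -/
theorem spa_ex {G S K K' : Type} [Group G] [MulAction G S] [Field K] [Field K'] {T : Subgroup G}
    {X : Set S} {e : S} {f : S → K} {f' : S → K'} {E E' : Set (S × S)} (hTX : Orb T e ⊆ X)
    (h1 : ∀ t ∈ T, f (t • e) ≠ 0 ∧ ∀ y ∈ X, f (t • y) = f (t • e) * f y)
    (h3 : ∀ t, t ∈ kap T E ↔ t ∈ T ∧ f (t • e) = 1)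
    (h1' : ∀ t ∈ T, f' (t • e) ≠ 0 ∧ ∀ y ∈ X, f' (t • y) = f' (t • e) * f' y)
    (h3' : ∀ t, t ∈ kap T E' ↔ t ∈ T ∧ f' (t • e) = 1) (w : G)
    (hwT : ∀ t ∈ T, w * t * w⁻¹ ∈ T) (hwe : w • e = e) (hcj : cj w⁻¹ (kap T E') = kap T E) :
    ∀ y ∈ Orb T e, ∀ z ∈ Orb T e, (f (w • y) = f (w • z) ↔ f' y = f' z) := by
  rintro _ ⟨t, ht, rfl⟩ _ ⟨s, hs, rfl⟩
  have key : ∀ r : G, w • r • e = (w * r * w⁻¹) • e := by
    intro r
    have : w⁻¹ • e = e := by rw [inv_smul_eq_iff, hwe]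
    rw [mul_smul, this, mul_smul]
  rw [key, key, spa_iff hTX h1 h3 _ _ (hwT t ht) (hwT s hs), spa_iff hTX h1' h3' _ _ ht hs, ← hcj,
    mem_cj]
  have : w⁻¹ * ((w * s * w⁻¹)⁻¹ * (w * t * w⁻¹)) * w⁻¹⁻¹ = s⁻¹ * t := by group
  rw [this]

theorem spa_core (hCOO : T_COO) (hLNK : T_LNK) (hCJH : T_CJH) (hHIC : T_HIC) (hCTB : T_CTB)
    {M : Type} (U : RU M) {G S : Type} [Group G] [MulAction G S] [Cod M G]
    [Cod M S] {n : ℕ} (x : Fin (n + 2) → S) (hF : Frm U G x) (hN : Nt U G x)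
    (ω : Equiv.Perm (Fin (n + 2)) →* G) (hω : Om U G x ω) (i j : Fin (n + 2)) (hi : i ≠ 0)
    (hj : j ≠ 0) (hij : i ≠ j) (E E' : Set (S × S)) (hE : E ∈ LL U G x i)
    (hE' : E' ∈ LL U G x i) (hne : E ≠ E') (hall : ∀ F ∈ LL U G x i, F = E ∨ F = E')
    (h1 : cj (ω (Equiv.swap i j))⁻¹ (kap (TT U G x 0) E) = kap (TT U G x 0) E')
    (h2 : cj (ω (Equiv.swap i j))⁻¹ (kap (TT U G x 0) E') = kap (TT U G x 0) E) : False := by
  classical
  have := hF.dg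
  have := hF.ful
  obtain ⟨hctx, -, -⟩ := hHIC U x hF i hi
  obtain ⟨-, -, -, -, -, -, -, -, hHX, -, -, hTX, -⟩ := hCTB U hF.act _ _ _ _ _ hctx
  let L : ∀ F ∈ LL U G x i, LF U G x i F := fun F h => Classical.choice h
  obtain ⟨-, hc2, -, hc4⟩ := hCOO U x hF hN i hi L
  obtain ⟨hl1, -, hl3, -, -, -, -, -, hl9⟩ := hLNK U hF.act _ _ _ _ _ hctx E (L E hE)
  obtain ⟨hm1, -, hm3, -, -, -, -, -, hm9⟩ := hLNK U hF.act _ _ _ _ _ hctx E' (L E' hE')
  have hff1 : (L E hE).f (x 0) = 1 := (L E hE).line.f1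
  have hff1' : (L E' hE').f (x 0) = 1 := (L E' hE').line.f1
  -- the element w
  have hs0 : (Equiv.swap i j) 0 = 0 := Equiv.swap_apply_of_ne_of_ne hi.symm hj.symm
  have hwe : ω (Equiv.swap i j) • x 0 = x 0 := by rw [hω.pm, hs0]
  have hwT : ∀ t ∈ TT U G x 0, ω (Equiv.swap i j) * t * (ω (Equiv.swap i j))⁻¹ ∈ TT U G x 0 := by
    intro t ht
    have h3 := (hCJH U x hF _ _ (hω.pm (Equiv.swap i j))).2.1 0
    rw [hs0] at h3
    rw [← h3, mem_cj]
    have : (ω (Equiv.swap i j))⁻¹ * (ω (Equiv.swap i j) * t * (ω (Equiv.swap i j))⁻¹) *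
        (ω (Equiv.swap i j))⁻¹⁻¹ = t := by group
    rw [this]
    exact ht
  have hx0 : x 0 ∈ Orb (TT U G x 0) (x 0) := ⟨1, Subgroup.one_mem _, (one_smul _ _).symm⟩
  have hwX : ∀ y ∈ Orb (TT U G x 0) (x 0), ω (Equiv.swap i j) • y ∈ Orb (TT U G x 0) (x 0) := by
    rintro _ ⟨t, ht, rfl⟩
    refine ⟨_, hwT t ht, ?_⟩
    have : (ω (Equiv.swap i j))⁻¹ • x 0 = x 0 := by rw [inv_smul_eq_iff, hwe]
    rw [mul_smul, this, mul_smul]
  have hA := spa_ex hTX hl1 hl3 hm1 hm3 _ hwT hwe h2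
  have hB := spa_ex hTX hm1 hm3 hl1 hl3 _ hwT hwe h1
  -- the element w0
  have hw0 : ω (Equiv.swap 0 i) ∈ HH U G x 0 i := hω.mem 0 i hi.symm
  have hw0i : ω (Equiv.swap 0 i) • x i = x 0 := by rw [hω.pm, Equiv.swap_apply_right]
  have hw00 : ω (Equiv.swap 0 i) • x 0 = x i := by rw [hω.pm, Equiv.swap_apply_left]
  have hf0 := hl9 _ hw0 hw0i hw00
  have hf0' := hm9 _ hw0 hw0i hw00
  have hX0 : ∀ y ∈ XX U G x i, (L E hE).f y ≠ 0 → (L E' hE').f y ≠ 0 →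
      y ∈ Orb (TT U G x 0) (x 0) := by
    intro y hy h3 h4
    refine (hc4 y).2 ⟨hy, fun F h => ?_⟩
    rcases hall F h with rfl | rfl
    · exact h3
    · exact h4
  -- the braid relation
  have hbr : ω (Equiv.swap i j) * ω (Equiv.swap 0 i) * ω (Equiv.swap i j) =
      ω (Equiv.swap 0 i) * ω (Equiv.swap i j) * ω (Equiv.swap 0 i) := by
    rw [← map_mul, ← map_mul, ← map_mul, ← map_mul]
    congr 1
    rw [Equiv.swap_mul_swap_mul_swap hi.symm hj.symm, Equiv.swap_comm i j, Equiv.swap_comm 0 i,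
      Equiv.swap_mul_swap_mul_swap hij.symm hj, Equiv.swap_comm]
  -- the points
  have ha : ∀ F : LL U G x i, ∃ p : (L F.1 F.2).K, p ≠ 0 ∧ p ≠ 1 := by
    intro F
    have := (L F.1 F.2).line.inf
    obtain ⟨p, hp⟩ := Infinite.exists_notMem_finset ({0, 1} : Finset (L F.1 F.2).K)
    simp only [Finset.mem_insert, Finset.mem_singleton, not_or] at hp
    exact ⟨p, hp⟩
  choose a ha0 ha1 using ha
  have hpt : ∀ q : (L E' hE').K, q ≠ 0 → ∃ y ∈ Orb (TT U G x 0) (x 0),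
      (L E hE).f y = a ⟨E, hE⟩ ∧ (L E' hE').f y = q := by
    intro q hq
    obtain ⟨t, ⟨ht, htu⟩, -⟩ := hc2 (fun F h => Function.update a ⟨E', hE'⟩ q ⟨F, h⟩) (by
      intro F h
      by_cases hFE : F = E'
      · subst hFE
        simpa using hq
      · rw [Function.update_of_ne (fun h5 => hFE (congrArg Subtype.val h5))]
        exact ha0 _)
    refine ⟨t • x 0, ⟨t, ht, rfl⟩, ?_, ?_⟩
    · rw [htu E hE, Function.update_of_ne (fun h5 => hne (congrArg Subtype.val h5))]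
    · rw [htu E' hE', Function.update_self]
  have := (L E' hE').line.inf
  obtain ⟨q1, hq1⟩ := Infinite.exists_notMem_finset ({0, 1} : Finset (L E' hE').K)
  obtain ⟨q2, hq2⟩ := Infinite.exists_notMem_finset ({0, 1, q1} : Finset (L E' hE').K)
  simp only [Finset.mem_insert, Finset.mem_singleton, not_or] at hq1 hq2
  obtain ⟨y1, hy1, hy1f, hy1g⟩ := hpt q1 hq1.1
  obtain ⟨y2, hy2, hy2f, hy2g⟩ := hpt q2 hq2.1
  -- the computation
  have hcomp : ∀ y ∈ Orb (TT U G x 0) (x 0), (L E hE).f y ≠ 1 → (L E' hE').f y ≠ 1 →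
      ω (Equiv.swap 0 i) • ω (Equiv.swap i j) • y ∈ Orb (TT U G x 0) (x 0) ∧
      (L E' hE').f (ω (Equiv.swap 0 i) • ω (Equiv.swap i j) • y) =
        1 - (L E' hE').f (ω (Equiv.swap i j) • y) ∧
      ω (Equiv.swap 0 i) • y ∈ Orb (TT U G x 0) (x 0) ∧
      (L E' hE').f (ω (Equiv.swap 0 i) • y) = 1 - (L E' hE').f y ∧
      (L E hE).f (ω (Equiv.swap i j) • ω (Equiv.swap 0 i) • ω (Equiv.swap i j) • y) =
        1 - (L E hE).f (ω (Equiv.swap i j) • ω (Equiv.swap 0 i) • y) := by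
    intro y hy h3 h4
    have h5 := hTX (hwX y hy)
    have h6 : (L E hE).f (ω (Equiv.swap i j) • y) ≠ 1 := by
      intro h7
      have h8 := (hA y hy (x 0) hx0).1 (by rw [h7, hwe, hff1])
      exact h4 (h8.trans hff1')
    have h6' : (L E' hE').f (ω (Equiv.swap i j) • y) ≠ 1 := by
      intro h7
      have h8 := (hB y hy (x 0) hx0).1 (by rw [h7, hwe, hff1'])
      exact h3 (h8.trans hff1)
    have h7 : ω (Equiv.swap 0 i) • y ∈ Orb (TT U G x 0) (x 0) := by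
      refine hX0 _ (hHX _ hw0 _ (hTX hy)) ?_ ?_
      · rw [hf0 _ (hTX hy)]
        exact sub_ne_zero.2 h3.symm
      · rw [hf0' _ (hTX hy)]
        exact sub_ne_zero.2 h4.symm
    refine ⟨hX0 _ (hHX _ hw0 _ h5) ?_ ?_, hf0' _ h5, h7, hf0' _ (hTX hy), ?_⟩
    · rw [hf0 _ h5]
      exact sub_ne_zero.2 h6.symm
    · rw [hf0' _ h5]
      exact sub_ne_zero.2 h6'.symm
    · have h8 : ω (Equiv.swap i j) • ω (Equiv.swap 0 i) • ω (Equiv.swap i j) • y =
          ω (Equiv.swap 0 i) • ω (Equiv.swap i j) • ω (Equiv.swap 0 i) • y := by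
        rw [smul_smul, smul_smul, smul_smul, smul_smul, hbr]
      rw [h8]
      exact hf0 _ (hTX (hwX _ h7))
  obtain ⟨c1, c2, c3, c4, c5⟩ := hcomp y1 hy1 (by rw [hy1f]; exact ha1 _) (by
    rw [hy1g]; exact hq1.2)
  obtain ⟨d1, d2, d3, d4, d5⟩ := hcomp y2 hy2 (by rw [hy2f]; exact ha1 _) (by
    rw [hy2g]; exact hq2.2.1)
  have h10 : (L E' hE').f (ω (Equiv.swap i j) • y1) = (L E' hE').f (ω (Equiv.swap i j) • y2) :=
    (hB y1 hy1 y2 hy2).2 (by rw [hy1f, hy2f])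
  have h11 := (hA _ c1 _ d1).2 (by rw [c2, d2, h10])
  rw [c5, d5] at h11
  have h12 := (hA _ c3 _ d3).1 (sub_right_injective h11)
  rw [c4, d4, hy1g, hy2g] at h12
  exact hq2.2.2 (sub_right_injective h12).symm

theorem pf_SPA (hFAI : T_FAI) (hCOO : T_COO) (hLNK : T_LNK) (hLCJ : T_LCJ) (hCJH : T_CJH)
    (hHIC : T_HIC) (hCTB : T_CTB) (_hSYM : T_SYM) (hTEK : T_TEK) : T_SPA := by
  classical
  intro M U G S _ _ _ _ n x hF hI hN ω hω hn i j hi hj hij hK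
  subst hn
  have hex : ∀ a b : Fin (2 + 2), ∃ l : Fin (2 + 2), l ≠ 0 ∧ l ≠ a ∧ l ≠ b := by decide
  obtain ⟨l, hl0, hli, hlj⟩ := hex i j
  -- conjugation of the kernels
  have hmv : ∀ (σ : Equiv.Perm (Fin (2 + 2))), σ 0 = 0 → ∀ a, a ≠ 0 → ∀ P ∈ KK U G x a,
      cj (ω σ)⁻¹ P ∈ KK U G x (σ a) := by
    rintro σ h0 a ha _ ⟨F, hFa, rfl⟩
    have h3 := hLCJ U x hF (ω σ) σ (hω.pm σ) h0 a ha F hFa
    exact ⟨mv (ω σ) F, h3.1, h3.2.1⟩
  have hcc : ∀ (w : G) (P : Subgroup G), w * w = 1 → cj w⁻¹ (cj w⁻¹ P) = P := by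
    intro w P hw
    ext g
    rw [mem_cj, mem_cj]
    have h3 : w⁻¹ * (w⁻¹ * g * w⁻¹⁻¹) * w⁻¹⁻¹ = (w * w)⁻¹ * g * (w * w) := by group
    rw [h3, hw, inv_one, one_mul, mul_one]
  have hsq : ∀ a b : Fin (2 + 2), ω (Equiv.swap a b) * ω (Equiv.swap a b) = 1 := by
    intro a b
    rw [← map_mul, Equiv.swap_mul_self, map_one]
  -- `KK l = KK i`
  have hsub : ∀ a b c : Fin (2 + 2), a ≠ 0 → b ≠ 0 → c ≠ 0 → a ≠ b → a ≠ c →
      KK U G x a = KK U G x b → KK U G x c = KK U G x a := by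
    intro a b c ha hb hc hab hac h
    have h0 : (Equiv.swap b c) 0 = 0 := Equiv.swap_apply_of_ne_of_ne hb.symm hc.symm
    have h4 : (Equiv.swap b c) a = a := Equiv.swap_apply_of_ne_of_ne hab hac
    apply Subset.antisymm
    · intro P hP
      have h5 := hmv (Equiv.swap b c) h0 c hc P hP
      rw [Equiv.swap_apply_right, ← h] at h5
      have h6 := hmv (Equiv.swap b c) h0 a ha _ h5
      rwa [hcc _ _ (hsq b c), h4] at h6
    · intro P hP
      have h5 := hmv (Equiv.swap b c) h0 a ha P hP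
      rw [h4, h] at h5
      have h6 := hmv (Equiv.swap b c) h0 b hb _ h5
      rwa [hcc _ _ (hsq b c), Equiv.swap_apply_left] at h6
  have hKl : KK U G x l = KK U G x i := hsub i j l hi hj hl0 hij hli.symm hK
  -- the two lines
  obtain ⟨E, E', hne, hLL⟩ := Set.ncard_eq_two.1 (hN.card i hi)
  have hE : E ∈ LL U G x i := by rw [hLL]; exact Set.mem_insert _ _
  have hE' : E' ∈ LL U G x i := by rw [hLL]; exact Set.mem_insert_of_mem _ rfl
  have hall : ∀ F ∈ LL U G x i, F = E ∨ F = E' := by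
    intro F hF
    rw [hLL] at hF
    exact hF
  have hinj := (hTEK U x hF hN i hi).2.2.2
  have hkne : kap (TT U G x 0) E ≠ kap (TT U G x 0) E' := fun h => hne (hinj E hE E' hE' h)
  have hKKi : ∀ P ∈ KK U G x i, P = kap (TT U G x 0) E ∨ P = kap (TT U G x 0) E' := by
    rintro _ ⟨F, hF, rfl⟩
    rcases hall F hF with rfl | rfl
    · exact Or.inl rfl
    · exact Or.inr rfl
  -- the transposition
  have hs0 : (Equiv.swap i j) 0 = 0 := Equiv.swap_apply_of_ne_of_ne hi.symm hj.symm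
  have hsl : (Equiv.swap i j) l = l := Equiv.swap_apply_of_ne_of_ne hli hlj
  have hact : ∀ P ∈ KK U G x i, cj (ω (Equiv.swap i j))⁻¹ P ∈ KK U G x i := by
    intro P hP
    rw [← hKl] at hP ⊢
    have h3 := hmv (Equiv.swap i j) hs0 l hl0 P hP
    rwa [hsl] at h3
  have hw1 : ω (Equiv.swap i j) ≠ 1 := by
    intro h
    have h3 : x i = x j := by
      have := hω.pm (Equiv.swap i j) i
      rwa [h, one_smul, Equiv.swap_apply_left] at this
    have h4 : x i = x 0 := by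
      have h5 := hω.pm (Equiv.swap 0 j) i
      have h6 := hω.pm (Equiv.swap 0 j) j
      rw [Equiv.swap_apply_of_ne_of_ne hi hij] at h5
      rw [Equiv.swap_apply_right, ← h3] at h6
      exact h5.symm.trans h6
    obtain ⟨L⟩ : Nonempty (LF U G x i E) := hE
    have h5 : L.f (x i) = L.f (x 0) := congrArg L.f h4
    rw [L.line.f0, L.line.f1] at h5
    exact zero_ne_one h5
  have hnot : ¬ (cj (ω (Equiv.swap i j))⁻¹ (kap (TT U G x 0) E) = kap (TT U G x 0) E ∧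
      cj (ω (Equiv.swap i j))⁻¹ (kap (TT U G x 0) E') = kap (TT U G x 0) E') := by
    rintro ⟨h3, h4⟩
    apply hw1
    refine hFAI U x hF hI hN _ _ (hω.pm (Equiv.swap i j)) hs0 l hl0 hsl ?_
    intro F hFl
    have h5 : kap (TT U G x 0) F ∈ KK U G x i := by
      rw [← hKl]
      exact ⟨F, hFl, rfl⟩
    rcases hKKi _ h5 with h6 | h6
    · rw [h6]; exact h3
    · rw [h6]; exact h4
  have hcE := hKKi _ (hact _ ⟨E, hE, rfl⟩)
  have hcE' := hKKi _ (hact _ ⟨E', hE', rfl⟩)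
  have hii : ∀ P Q : Subgroup G, cj (ω (Equiv.swap i j))⁻¹ P = cj (ω (Equiv.swap i j))⁻¹ Q →
      P = Q := by
    intro P Q h
    rw [← hcc _ P (hsq i j), h, hcc _ Q (hsq i j)]
  rcases hcE with h3 | h3
  · rcases hcE' with h4 | h4
    · exact hkne (hii _ _ (h3.trans h4.symm))
    · exact hnot ⟨h3, h4⟩
  · rcases hcE' with h4 | h4
    · exact spa_core hCOO hLNK hCJH hHIC hCTB U x hF hN ω hω i j hi hj hij E E' hE hE' hne hall
        h3 h4
    · exact hkne (hii _ _ (h3.trans h4.symm))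

end Pool.Agent.H85.S
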