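import Pool.Agent.H78.S.Targets

/-! Row SPB of the board sgt_modules: a kernel belongs to at most two indices. -/

set_option autoImplicit false

open Set Pool.Agent.H77.BC Pool.Agent.H78.S
open scoped Pointwise

namespace Pool.Agent.H85.S

/-- a permutation with two given values and two given fixed points -/
theorem spb_perm {ι : Type} [DecidableEq ι] (o i j l a b : ι) (hjo : j ≠ o) (hji : j ≠ i)
    (hlo : l ≠ o) (hli : l ≠ i) (hjl : j ≠ l) (hao : a ≠ o) (hai : a ≠ i) (hbo : b ≠ o)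
    (hbi : b ≠ i) (hab : a ≠ b) :
    ∃ σ : Equiv.Perm ι, σ o = o ∧ σ i = i ∧ σ j = a ∧ σ l = b := by
  have hl' : ∀ c, c ≠ j → c ≠ l → Equiv.swap j a l ≠ c := by
    intro c hcj hcl
    rw [Equiv.swap_apply_def]
    split_ifs with h1 h2
    · exact absurd h1.symm hjl
    · exact hcj.symm
    · exact hcl.symm
  have hla : Equiv.swap j a l ≠ a := by
    intro h
    have h1 : Equiv.swap j a l = Equiv.swap j a j := by rw [h, Equiv.swap_apply_left]
    exact hjl ((Equiv.swap j a).injective h1).symm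
  refine ⟨Equiv.swap (Equiv.swap j a l) b * Equiv.swap j a, ?_, ?_, ?_, ?_⟩
  · rw [Equiv.Perm.mul_apply, Equiv.swap_apply_of_ne_of_ne hjo.symm hao.symm,
      Equiv.swap_apply_of_ne_of_ne (hl' o hjo.symm hlo.symm).symm hbo.symm]
  · rw [Equiv.Perm.mul_apply, Equiv.swap_apply_of_ne_of_ne hji.symm hai.symm,
      Equiv.swap_apply_of_ne_of_ne (hl' i hji.symm hli.symm).symm hbi.symm]
  · rw [Equiv.Perm.mul_apply, Equiv.swap_apply_left, Equiv.swap_apply_of_ne_of_ne hla.symm hab]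
  · rw [Equiv.Perm.mul_apply, Equiv.swap_apply_left]

theorem pf_SPB (hSPA : T_SPA) (hP21 : T_P21) (hNTT : T_NTT) (_hFAI : T_FAI) (hLCJ : T_LCJ)
    (_hLFI : T_LFI) (hHIC : T_HIC) (_hSYM : T_SYM) : T_SPB := by
  classical
  intro M U G S _ _ _ _ n x hF hI hN ω hω i j l hi hj hl hij hil hjl E hE E' hE' E'' hE'' h1 h2
  -- conjugates
  have hcjm : ∀ (g h : G) (P : Subgroup G), cj (g * h)⁻¹ P = cj g⁻¹ (cj h⁻¹ P) := by
    intro g h P
    ext y
    rw [mem_cj, mem_cj, mem_cj]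
    have h3 : (g * h)⁻¹ * y * (g * h)⁻¹⁻¹ = h⁻¹ * (g⁻¹ * y * g⁻¹⁻¹) * h⁻¹⁻¹ := by group
    rw [h3]
  have hcj1 : ∀ P : Subgroup G, cj (1 : G)⁻¹ P = P := by
    intro P
    ext y
    rw [mem_cj, inv_one, one_mul, inv_one, mul_one]
  -- the points
  have hx0 : ∀ a, a ≠ 0 → x a ≠ x 0 := by
    intro a ha h
    have hne : (LL U G x a).Nonempty := by
      apply Set.nonempty_of_ncard_ne_zero
      rw [hN.card a ha]
      have := hF.pos
      omega
    obtain ⟨F, ⟨L⟩⟩ := hne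
    have h5 : L.f (x a) = L.f (x 0) := congrArg L.f h
    rw [L.line.f0, L.line.f1] at h5
    exact zero_ne_one h5
  have hTH : ∀ m, m ≠ 0 → TT U G x 0 ≤ HH U G x 0 m := by
    intro m hm
    obtain ⟨hctx, -, -⟩ := hHIC U x hF m hm
    have h5 := hctx.comp
    unfold cc at h5
    rcases Set.eq_empty_or_nonempty {L : Subgroup G | L ≤ Fx (HH U G x 0 m) (x m) ∧
      U.D (L : Set G) ∧ L.relIndex (Fx (HH U G x 0 m) (x m)) ≠ 0} with h6 | ⟨L, hL⟩
    · rw [h6, sInf_empty] at h5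
      exfalso
      have hcom := hN.com (ω (Equiv.swap 0 i)) (by rw [h5]; trivial) (ω (Equiv.swap i j))
        (by rw [h5]; trivial)
      have h7 : (ω (Equiv.swap 0 i) * ω (Equiv.swap i j)) • x i =
          (ω (Equiv.swap i j) * ω (Equiv.swap 0 i)) • x i := by rw [hcom]
      have e1 : ω (Equiv.swap i j) • x i = x j := by rw [hω.pm, Equiv.swap_apply_left]
      have e2 : ω (Equiv.swap 0 i) • x j = x j := by
        rw [hω.pm, Equiv.swap_apply_of_ne_of_ne hj hij.symm]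
      have e3 : ω (Equiv.swap 0 i) • x i = x 0 := by rw [hω.pm, Equiv.swap_apply_right]
      have e4 : ω (Equiv.swap i j) • x 0 = x 0 := by
        rw [hω.pm, Equiv.swap_apply_of_ne_of_ne hi.symm hj.symm]
      rw [mul_smul, mul_smul, e1, e2, e3, e4] at h7
      exact hx0 j hj h7
    · rw [h5]
      exact (sInf_le hL).trans (hL.1.trans inf_le_left)
  have hTX : ∀ m, m ≠ 0 → ∀ t ∈ TT U G x 0, t • x 0 ∈ XX U G x m := by
    intro m hm t ht
    obtain ⟨hctx, -, -⟩ := hHIC U x hF m hm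
    obtain ⟨h, hh, h5⟩ : x 0 ∈ Orb (HH U G x 0 m) (x m) := hctx.mem
    refine ⟨t * h, Subgroup.mul_mem _ (hTH m hm ht) hh, ?_⟩
    rw [mul_smul, ← h5]
  -- the fixed indices
  have key : ∀ m, m ≠ 0 → ∀ F ∈ LL U G x m, kap (TT U G x 0) F = kap (TT U G x 0) E →
      ∀ σ : Equiv.Perm (Fin (n + 2)), σ 0 = 0 → σ i = i →
      cj (ω σ)⁻¹ (kap (TT U G x 0) E) = kap (TT U G x 0) E → σ m = m := by
    intro m hm F hFm hFE σ h0 hσi hc
    by_contra hne
    have hσm0 : σ m ≠ 0 := fun h => hm (σ.injective (h.trans h0.symm))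
    obtain ⟨-, -, hp⟩ := hP21 U x hF hI (ω σ) σ (hω.pm σ) h0 i hi hσi E hE hc
    obtain ⟨q1, q2, q3⟩ := hLCJ U x hF (ω σ) σ (hω.pm σ) h0 m hm F hFm
    obtain ⟨L⟩ := (hFm : Nonempty (LF U G x m F))
    obtain ⟨L'⟩ := (q1 : Nonempty (LF U G x (σ m) (mv (ω σ) F)))
    obtain ⟨φ, hφ⟩ := q3 L L'
    refine hNTT U x hF m (σ m) hm hσm0 (Ne.symm hne) F _ L L' φ ?_
    intro t ht
    have hX2 : t • x 0 ∈ XX U G x (σ m) := hTX _ hσm0 t ht
    have hk : ω σ • t • x 0 = (ω σ * t * (ω σ)⁻¹ * t⁻¹) • t • x 0 := by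
      have h3 : (ω σ)⁻¹ • x 0 = x 0 := by rw [inv_smul_eq_iff, hω.pm, h0]
      rw [mul_smul _ t⁻¹, inv_smul_smul, mul_smul _ (ω σ)⁻¹, h3, mul_smul]
    have hkk : ω σ * t * (ω σ)⁻¹ * t⁻¹ ∈ kap (TT U G x 0) (mv (ω σ) F) := by
      rw [q2, hFE, hc]
      exact (hp t ht).2
    have h8 := (Subgroup.mem_iInf.1 hkk.2) (t • x 0)
    have h9 : t • x 0 ∈ {z | (t • x 0, z) ∈ mv (ω σ) F} := by
      have h3 : (t • x 0, t • x 0) ∈ Rel (XX U G x (σ m)) L'.f := ⟨hX2, hX2, rfl⟩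
      rw [← L'.eq] at h3
      exact h3
    have h10 : (ω σ * t * (ω σ)⁻¹ * t⁻¹) • t • x 0 ∈ {z | (t • x 0, z) ∈ mv (ω σ) F} := by
      have h3 := Set.smul_mem_smul_set (a := ω σ * t * (ω σ)⁻¹ * t⁻¹) h9
      rwa [MulAction.mem_stabilizer_iff.1 h8] at h3
    have h11 : (t • x 0, (ω σ * t * (ω σ)⁻¹ * t⁻¹) • t • x 0) ∈
        Rel (XX U G x (σ m)) L'.f := by
      rw [← L'.eq]
      exact h10
    rw [← (hφ _ (hTX m hm t ht)).2, hk]
    exact h11.2.2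
  -- conjugation of the kernels
  have hmv : ∀ (σ : Equiv.Perm (Fin (n + 2))), σ 0 = 0 → ∀ a, a ≠ 0 → ∀ P ∈ KK U G x a,
      cj (ω σ)⁻¹ P ∈ KK U G x (σ a) := by
    rintro σ h0 a ha _ ⟨F, hFa, rfl⟩
    have h3 := hLCJ U x hF (ω σ) σ (hω.pm σ) h0 a ha F hFa
    exact ⟨mv (ω σ) F, h3.1, h3.2.1⟩
  have hfin : ∀ a, a ≠ 0 → (KK U G x a).Finite := fun a ha => (hN.fin a ha).image _
  have hcard : ∀ a, a ≠ 0 → (KK U G x a).ncard ≤ n := by
    intro a ha
    have h3 := Set.ncard_image_le (f := kap (TT U G x 0)) (hN.fin a ha)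
    rwa [hN.card a ha] at h3
  -- counting
  have hperm : ∀ p : Fin (n + 2) × Fin (n + 2), ∃ σ : Equiv.Perm (Fin (n + 2)),
      p.1 ≠ 0 → p.1 ≠ i → p.2 ≠ 0 → p.2 ≠ i → p.1 ≠ p.2 →
        σ 0 = 0 ∧ σ i = i ∧ σ j = p.1 ∧ σ l = p.2 := by
    intro p
    by_cases hp : p.1 ≠ 0 ∧ p.1 ≠ i ∧ p.2 ≠ 0 ∧ p.2 ≠ i ∧ p.1 ≠ p.2
    · obtain ⟨c1, c2, c3, c4, c5⟩ := hp
      obtain ⟨σ, hσ⟩ := spb_perm 0 i j l p.1 p.2 hj hij.symm hl hil.symm hjl c1 c2 c3 c4 c5
      exact ⟨σ, fun _ _ _ _ _ => hσ⟩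
    · exact ⟨1, fun c1 c2 c3 c4 c5 => absurd ⟨c1, c2, c3, c4, c5⟩ hp⟩
  choose s hs using hperm
  have hsp : ∀ p ∈ ((Finset.univ.erase (0 : Fin (n + 2))).erase i).offDiag,
      s p 0 = 0 ∧ s p i = i ∧ s p j = p.1 ∧ s p l = p.2 := by
    intro p hp
    rw [Finset.mem_offDiag, Finset.mem_erase, Finset.mem_erase, Finset.mem_erase,
      Finset.mem_erase] at hp
    exact hs p hp.1.2.1 hp.1.1 hp.2.1.2.1 hp.2.1.1 hp.2.2
  have hinj : Set.InjOn (fun p => cj (ω (s p))⁻¹ (kap (TT U G x 0) E))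
      (((Finset.univ.erase (0 : Fin (n + 2))).erase i).offDiag :
        Set (Fin (n + 2) × Fin (n + 2))) := by
    intro p hp q hq hpq
    obtain ⟨c1, c2, c3, c4⟩ := hsp p hp
    obtain ⟨d1, d2, d3, d4⟩ := hsp q hq
    have h3 : cj (ω ((s q)⁻¹ * s p))⁻¹ (kap (TT U G x 0) E) = kap (TT U G x 0) E := by
      rw [map_mul, hcjm]
      have h4 : cj (ω (s p))⁻¹ (kap (TT U G x 0) E) = cj (ω (s q))⁻¹ (kap (TT U G x 0) E) := hpq
      rw [h4, ← hcjm, ← map_mul, inv_mul_cancel, map_one, hcj1]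
    have h5 : ((s q)⁻¹ * s p) 0 = 0 := by
      rw [Equiv.Perm.mul_apply, c1, Equiv.Perm.inv_eq_iff_eq, d1]
    have h6 : ((s q)⁻¹ * s p) i = i := by
      rw [Equiv.Perm.mul_apply, c2, Equiv.Perm.inv_eq_iff_eq, d2]
    have h7 := key j hj E' hE' h1.symm _ h5 h6 h3
    have h8 := key l hl E'' hE'' h2.symm _ h5 h6 h3
    rw [Equiv.Perm.mul_apply, Equiv.Perm.inv_eq_iff_eq, c3, d3] at h7
    rw [Equiv.Perm.mul_apply, Equiv.Perm.inv_eq_iff_eq, c4, d4] at h8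
    exact Prod.ext h7 h8
  have hmaps : ∀ p ∈ (((Finset.univ.erase (0 : Fin (n + 2))).erase i).offDiag :
      Set (Fin (n + 2) × Fin (n + 2))), cj (ω (s p))⁻¹ (kap (TT U G x 0) E) ∈ KK U G x i := by
    intro p hp
    obtain ⟨c1, c2, -, -⟩ := hsp p hp
    have h3 := hmv (s p) c1 i hi _ ⟨E, hE, rfl⟩
    rwa [c2] at h3
  have hle := Set.ncard_le_ncard_of_injOn _ hmaps hinj (hfin i hi)
  have hcA : ((Finset.univ.erase (0 : Fin (n + 2))).erase i).card = n := by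
    rw [Finset.card_erase_of_mem (Finset.mem_erase.2 ⟨hi, Finset.mem_univ _⟩),
      Finset.card_erase_of_mem (Finset.mem_univ _), Finset.card_univ, Fintype.card_fin]
    omega
  rw [Set.ncard_coe_finset, Finset.offDiag_card, hcA] at hle
  have hpos : 0 < ((Finset.univ.erase (0 : Fin (n + 2))).erase i).offDiag.card := by
    apply Finset.card_pos.2
    refine ⟨(j, l), ?_⟩
    rw [Finset.mem_offDiag, Finset.mem_erase, Finset.mem_erase, Finset.mem_erase,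
      Finset.mem_erase]
    exact ⟨⟨hij.symm, hj, Finset.mem_univ _⟩, ⟨hil.symm, hl, Finset.mem_univ _⟩, hjl⟩
  rw [Finset.offDiag_card, hcA] at hpos
  have hn : n = 2 := by
    have h3 := hle.trans (hcard i hi)
    have h4 : n * n ≤ n + n := by omega
    have h5 : 0 < n := hF.pos
    have h6 : n ≤ 2 := by nlinarith
    interval_cases n
    · simp at hpos
    · rfl
  -- two lines
  have h0 : (Equiv.swap j l) 0 = 0 := Equiv.swap_apply_of_ne_of_ne hj.symm hl.symm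
  have hii : (Equiv.swap j l) i = i := Equiv.swap_apply_of_ne_of_ne hij hil
  have hk : cj (ω (Equiv.swap j l))⁻¹ (kap (TT U G x 0) E) ≠ kap (TT U G x 0) E := by
    intro h
    have h3 := key j hj E' hE' h1.symm _ h0 hii h
    rw [Equiv.swap_apply_left] at h3
    exact hjl h3.symm
  have hEj : kap (TT U G x 0) E ∈ KK U G x j := ⟨E', hE', h1.symm⟩
  have hEl : kap (TT U G x 0) E ∈ KK U G x l := ⟨E'', hE'', h2.symm⟩
  have hEj' : cj (ω (Equiv.swap j l))⁻¹ (kap (TT U G x 0) E) ∈ KK U G x j := by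
    have h3 := hmv _ h0 l hl _ hEl
    rwa [Equiv.swap_apply_right] at h3
  have hEl' : cj (ω (Equiv.swap j l))⁻¹ (kap (TT U G x 0) E) ∈ KK U G x l := by
    have h3 := hmv _ h0 j hj _ hEj
    rwa [Equiv.swap_apply_left] at h3
  have hpair : ({cj (ω (Equiv.swap j l))⁻¹ (kap (TT U G x 0) E), kap (TT U G x 0) E} :
      Set (Subgroup G)).ncard = 2 := Set.ncard_pair hk
  have hall : ∀ a, a ≠ 0 → kap (TT U G x 0) E ∈ KK U G x a →
      cj (ω (Equiv.swap j l))⁻¹ (kap (TT U G x 0) E) ∈ KK U G x a →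
      ({cj (ω (Equiv.swap j l))⁻¹ (kap (TT U G x 0) E), kap (TT U G x 0) E} :
        Set (Subgroup G)) = KK U G x a := by
    intro a ha h3 h4
    refine Set.eq_of_subset_of_ncard_le ?_ ?_ (hfin a ha)
    · rintro P (rfl | rfl)
      · exact h4
      · exact h3
    · rw [hpair]
      exact (hcard a ha).trans (le_of_eq hn)
  exact hSPA U x hF hI hN ω hω hn j l hj hl hjl
    ((hall j hj hEj hEj').symm.trans (hall l hl hEl hEl'))

end Pool.Agent.H85.S
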