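import Pool.Agent.H78.S.TA

/-! Row TRJ of the board sgt_modules: torsion in the units of a ring and the Jacobson radical. -/

set_option autoImplicit false

open Set Pool.Agent.H78.S

namespace Pool.Agent.H85.S

open Polynomial

/-- In a field the elements with `x ^ q = 1` inject into `Fin q`. -/
theorem root_inj (F : Type) [Field F] (q : ℕ) (hq : 0 < q) :
    ∃ f : {x : F // x ^ q = 1} → Fin q, Function.Injective f := by
  classical
  have h1 : ∀ x : F, x ^ q = 1 → x ∈ nthRootsFinset q (1 : F) := fun x hx =>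
    (mem_nthRootsFinset hq 1).2 hx
  have h2 : (nthRootsFinset q (1 : F)).card ≤ q := by
    rw [nthRootsFinset_def]
    exact (Multiset.toFinset_card_le _).trans (card_nthRoots q 1)
  let e := (nthRootsFinset q (1 : F)).equivFin
  refine ⟨fun x => Fin.castLE h2 (e ⟨x.1, h1 x.1 x.2⟩), ?_⟩
  intro x y hxy
  have h3 := e.injective (Fin.castLE_injective h2 hxy)
  apply Subtype.ext
  exact Subtype.mk.inj h3

theorem pf_TRJ : T_TRJ := by
  classical
  intro R _ s m hm hall q hq hu
  have hq0 : 0 < q := hq.pos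
  -- the coordinates
  have hf : ∀ i : Fin s, ∃ f : {x : R ⧸ m i // x ^ q = 1} → Fin q, Function.Injective f := by
    intro i
    have := hm i
    let _ : Field (R ⧸ m i) := Ideal.Quotient.field (m i)
    exact root_inj (R ⧸ m i) q hq0
  choose f hf using hf
  have hcard : Fintype.card (Fin s → Fin q) = q ^ s := by simp
  let e : (Fin s → Fin q) ≃ Fin (q ^ s) := Fintype.equivFinOfCardEq hcard
  have hmem : ∀ (i : Fin s) (u : {u : Rˣ // u ^ q = 1}),
      (Ideal.Quotient.mk (m i) ((u.1 : Rˣ) : R)) ^ q = 1 := by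
    intro i u
    rw [← map_pow, ← Units.val_pow_eq_pow_val, u.2, Units.val_one, map_one]
  refine ⟨fun u => e (fun i => f i ⟨_, hmem i u⟩), ?_⟩
  intro u v huv
  have h1 : ∀ i, Ideal.Quotient.mk (m i) ((u.1 : Rˣ) : R) =
      Ideal.Quotient.mk (m i) ((v.1 : Rˣ) : R) := by
    intro i
    have h2 := congrFun (e.injective huv) i
    exact Subtype.ext_iff.1 (hf i h2)
  -- the quotient of the two units
  obtain ⟨w, hw⟩ : ∃ w : Rˣ, w = u.1 * v.1⁻¹ := ⟨_, rfl⟩
  have hwq : w ^ q = 1 := by
    rw [hw, mul_pow, inv_pow, u.2, v.2, inv_one, mul_one]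
  obtain ⟨z, hz⟩ : ∃ z : R, z = (w : R) - 1 := ⟨_, rfl⟩
  have hzm : ∀ I : Ideal R, I.IsMaximal → z ∈ I := by
    intro I hI
    obtain ⟨i, rfl⟩ := hall I hI
    have h3 : ((u.1 : Rˣ) : R) - ((v.1 : Rˣ) : R) ∈ m i := by
      rw [← Ideal.Quotient.eq_zero_iff_mem, map_sub, h1 i, sub_self]
    have h4 : z = (((u.1 : Rˣ) : R) - ((v.1 : Rˣ) : R)) * ((v.1⁻¹ : Rˣ) : R) := by
      rw [hz, hw, Units.val_mul, sub_mul, Units.mul_inv]
    rw [h4]
    exact Ideal.mul_mem_right _ _ h3
  -- binomial expansion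
  have h5 : (1 + z) ^ q = 1 := by
    rw [hz, add_sub_cancel, ← Units.val_pow_eq_pow_val, hwq, Units.val_one]
  obtain ⟨c, hc⟩ : ∃ c : R, (1 + z) ^ q = 1 + z * ((q : R) + z * c) := by
    have h6 : ∀ n : ℕ, ∃ c : R, (1 + z) ^ n = 1 + z * ((n : R) + z * c) := by
      intro n
      induction n with
      | zero => exact ⟨0, by simp⟩
      | succ n ih =>
        obtain ⟨c, hc⟩ := ih
        refine ⟨(n : R) + c + z * c, ?_⟩
        rw [pow_succ, hc]
        push_cast
        ring
    exact h6 q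
  have h7 : z * ((q : R) + z * c) = 0 := by
    have := hc.symm.trans h5
    linear_combination this
  have h8 : IsUnit ((q : R) + z * c) := by
    by_contra hn
    obtain ⟨I, hI, hmI⟩ := exists_max_ideal_of_mem_nonunits hn
    have h9 : (q : R) ∈ I := by
      have := I.sub_mem hmI (I.mul_mem_right c (hzm I hI))
      rwa [add_sub_cancel_right] at this
    exact hI.ne_top (I.eq_top_of_isUnit_mem h9 hu)
  have h10 : z = 0 := by
    obtain ⟨t, ht⟩ := h8
    rw [← ht] at h7
    exact (Units.mul_left_eq_zero t).1 h7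
  have h11 : w = 1 := by
    apply Units.ext
    rw [Units.val_one]
    exact sub_eq_zero.1 (hz.symm.trans h10)
  apply Subtype.ext
  rw [hw] at h11
  exact mul_inv_eq_one.1 h11

end Pool.Agent.H85.S
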