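import Pool.Agent.H78.S.TA

/-! Row TRS of the board sgt_modules: torsion in an extension of a torus by a finite group. -/

set_option autoImplicit false

open Set Pool.Agent.H78.S

namespace Pool.Agent.H85.S

/-- In an algebraically closed field of characteristic prime to `q` there are `q` roots of unity. -/
theorem roots_card (K : Type) [Field K] [IsAlgClosed K] (q : ℕ) (hq : q.Prime)
    (h : (q : K) ≠ 0) : ∃ f : Fin q → Kˣ, Function.Injective f ∧ ∀ i, f i ^ q = 1 := by
  have : NeZero (q : K) := ⟨h⟩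
  have : NeZero q := ⟨hq.ne_zero⟩
  obtain ⟨z, hz⟩ := HasEnoughRootsOfUnity.exists_primitiveRoot K q
  have hz' : IsPrimitiveRoot (hz.isUnit hq.ne_zero).unit q := hz.isUnit_unit hq.ne_zero
  refine ⟨fun i => (hz.isUnit hq.ne_zero).unit ^ (i : ℕ), ?_, ?_⟩
  · intro i j hij
    exact Fin.ext (hz'.pow_inj i.2 j.2 hij)
  · intro i
    change ((hz.isUnit hq.ne_zero).unit ^ (i : ℕ)) ^ q = 1
    rw [← pow_mul, mul_comm, pow_mul, hz'.pow_eq_one, one_pow]

theorem pf_TRS : T_TRS := by
  classical
  intro A _ n K _ _ ψ hψ hfin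
  -- the kernel
  obtain ⟨N, hN⟩ : ∃ N : Subgroup A, ∀ a, a ∈ N ↔ ∀ i, ψ i a = 1 := by
    refine ⟨⨅ i, (ψ i).ker, fun a => ?_⟩
    rw [Subgroup.mem_iInf]
    rfl
  have hNf : Finite N := by
    have h1 : (N : Set A) = {a | ∀ i, ψ i a = 1} := by
      ext a
      exact hN a
    have h2 : (N : Set A).Finite := by rw [h1]; exact hfin
    exact h2
  have := hNf
  refine ⟨Nat.card N + ∑ i, ringChar (K i), ?_⟩
  intro q hq hlt s hF
  obtain ⟨F, hFi⟩ := hF
  have hqK : ∀ i, (q : K i) ≠ 0 := by
    intro i h0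
    have h1 : ringChar (K i) ∣ q := (ringChar.spec (K i) q).1 h0
    rcases (Nat.dvd_prime hq).1 h1 with h2 | h2
    · have h3 := CharP.char_ne_one (K i) (ringChar (K i))
      exact h3 h2
    · have h3 : ringChar (K i) ≤ ∑ i, ringChar (K i) :=
        Finset.single_le_sum (f := fun i => ringChar (K i)) (fun _ _ => Nat.zero_le _)
          (Finset.mem_univ i)
      omega
  have hcop : (Nat.card N).Coprime q := by
    have h1 : 0 < Nat.card N := Nat.card_pos
    rw [Nat.coprime_comm]
    exact (Nat.Prime.coprime_iff_not_dvd hq).2 fun hd => by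
      have := Nat.le_of_dvd h1 hd
      omega
  choose f hfi hf1 using fun i => roots_card (K i) q hq (hqK i)
  -- the lifts
  have hlift : ∀ x : Fin n → Fin q, ∃ a : A, (∀ i, ψ i a = f i (x i)) ∧ a ^ q = 1 := by
    intro x
    obtain ⟨a, ha⟩ := hψ fun i => f i (x i)
    have h1 : a ^ q ∈ N := by
      rw [hN]
      intro i
      rw [map_pow, ha i, hf1]
    obtain ⟨b, hb⟩ := (powCoprime hcop).surjective ⟨a ^ q, h1⟩
    have hb' : ((b : N) : A) ^ q = a ^ q := by
      have := congrArg (fun z : N => (z : A)) hb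
      simpa [powCoprime] using this
    refine ⟨a * (b : A)⁻¹, ?_, ?_⟩
    · intro i
      rw [map_mul, map_inv, (hN b).1 b.2 i, inv_one, mul_one, ha i]
    · rw [mul_pow, inv_pow, hb', mul_inv_cancel]
  choose l hl1 hl2 using hlift
  have hinj : Function.Injective fun x : Fin n → Fin q => F ⟨l x, hl2 x⟩ := by
    intro x y hxy
    have h1 := hFi hxy
    have h2 : l x = l y := Subtype.ext_iff.1 h1
    funext i
    apply hfi i
    rw [← hl1 x i, ← hl1 y i, h2]
  have hcard := Fintype.card_le_of_injective _ hinj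
  rw [Fintype.card_fun, Fintype.card_fin, Fintype.card_fin, Fintype.card_fin] at hcard
  exact (Nat.pow_le_pow_iff_right hq.one_lt).1 hcard

end Pool.Agent.H85.S
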