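import Pool.Agent.H78.S.Targets

/-! Row ULF of the board sgt_modules: units in Artinian rings. -/

set_option autoImplicit false

open Set Pool.Agent.H77.BC Pool.Agent.H78.S

namespace Pool.Agent.H85.S

theorem ulf_aux (R : Type) [CommRing R] [IsArtinianRing R] (I : Ideal R) (hI : I.IsMaximal)
    (a : R) (ha : a ∉ I) : ∃ u : Rˣ, (u : R) - a ∈ I := by
  classical
  have : Finite (MaximalSpectrum R) := inferInstance
  have := Fintype.ofFinite (MaximalSpectrum R)
  have hco : Pairwise fun i j : MaximalSpectrum R => IsCoprime i.asIdeal j.asIdeal := by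
    intro i j hij
    have h1 : i.asIdeal ≠ j.asIdeal := fun h => hij (MaximalSpectrum.ext h)
    rw [Ideal.isCoprime_iff_sup_eq]
    exact i.isMaximal.coprime_of_ne j.isMaximal h1
  obtain ⟨u, hu⟩ := Ideal.exists_forall_sub_mem_ideal hco
    (fun i : MaximalSpectrum R => if i.asIdeal = I then a else 1)
  have h2 : u - a ∈ I := by
    have := hu ⟨I, hI⟩
    simpa using this
  have h3 : IsUnit u := by
    by_contra hn
    obtain ⟨J, hJ, huJ⟩ := exists_max_ideal_of_mem_nonunits hn
    have h4 := hu ⟨J, hJ⟩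
    by_cases hJI : J = I
    · subst hJI
      apply ha
      have h5 := J.sub_mem huJ h2
      rwa [sub_sub_cancel] at h5
    · rw [if_neg hJI] at h4
      apply hJ.ne_top
      rw [Ideal.eq_top_iff_one]
      have h5 := J.sub_mem huJ h4
      rwa [sub_sub_cancel] at h5
  obtain ⟨w, hw⟩ := h3
  exact ⟨w, by rw [hw]; exact h2⟩

theorem pf_ULF : T_ULF := fun R _ _ I hI a ha => ulf_aux R I hI a ha

end Pool.Agent.H85.S
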